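import Pool.Agent.Helper13.PC.Low

/-!
# The core with explicit constants, from the bulk and the existence of the radius
-/

set_option autoImplicit false

namespace Pool.Agent.Helper10.PC

open Polynomial EVC

/-- the threshold is linear in `E`; the low range is `Helper13.PC.low`, linear in `L √ε` -/
theorem corePoly_of {N : ℕ} {C : ℝ}
    (hbulk : ∀ b κ ε E : ℝ, AdmP b κ ε E → ∀ (L : ℕ) (P : ℝ[X]), HP b κ ε E L P →
      ∀ r : ℝ, 0 < r → r ≤ 600 → C * E / (κ * b) ^ N ≤ L * √r → ∀ k : ℕ, 1 ≤ k → mean P r = k →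
      P.coeff (k - 1) * P.coeff (k + 1) < P.coeff k ^ 2)
    (hex : ∀ b κ ε E : ℝ, AdmP b κ ε E → ∀ (L : ℕ) (P : ℝ[X]), HP b κ ε E L P →
      ∀ (k : ℕ) (T : ℝ), 0 < T → T ≤ L → 1 / b * (8 * T + 3 * E) ≤ k →
      (k : ℝ) + L / 148 < P.natDegree → ∃ r : ℝ, 0 < r ∧ r ≤ 600 ∧ T ≤ L * √r ∧ mean P r = k) :
    ∃ C' : ℝ, 0 < C' ∧ ∀ b κ ε E : ℝ, AdmP b κ ε E → ∀ (L : ℕ) (P : ℝ[X]), HP b κ ε E L P →
      C' * E ≤ L * ((κ * b) ^ N * b * √ε) → ∀ k : ℕ, 1 ≤ k →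
      P.coeff (k - 1) * P.coeff (k + 1) ≤ P.coeff k ^ 2 := by
  obtain ⟨C₀, hC₀⟩ : ∃ C₀, C₀ = max C 1 := ⟨_, rfl⟩
  have hC1 : 1 ≤ C₀ := by rw [hC₀]; exact le_max_right _ _
  have hCC : C ≤ C₀ := by rw [hC₀]; exact le_max_left _ _
  refine ⟨10 ^ 13 * 11 * C₀, by positivity, fun b κ ε E hA L P h hL k hk => ?_⟩
  have hb := hA.hb
  have hb1 := hA.hb1
  have hκ := hA.hκ
  have hκ1 := hA.hκ1
  have hε := hA.hε
  have hε1 := hA.hε1
  have hE := hA.hE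
  have hL0 : (0 : ℝ) ≤ L := Nat.cast_nonneg L
  obtain ⟨s, hs⟩ : ∃ s, s = √ε := ⟨_, rfl⟩
  have hs0 : 0 < s := by rw [hs]; exact Real.sqrt_pos.2 hε
  have hs1 : s ≤ 1 := by
    rw [hs]
    exact Real.sqrt_le_one.2 hε1
  rw [← hs] at hL
  obtain ⟨q, hq⟩ : ∃ q, q = (κ * b) ^ N := ⟨_, rfl⟩
  have hq0 : 0 < q := by rw [hq]; positivity
  have hq1 : q ≤ 1 := by
    rw [hq]
    refine pow_le_one₀ (by positivity) ?_
    calc κ * b ≤ 1 * 1 := mul_le_mul hκ1 hb1 hb.le zero_le_one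
      _ = 1 := one_mul 1
  rw [← hq] at hL
  obtain ⟨T, hT⟩ : ∃ T, T = C₀ * E / q := ⟨_, rfl⟩
  have hTq : T * q = C₀ * E := by
    rw [hT]
    field_simp
  have hTE : E ≤ T := by
    rw [hT, le_div_iff₀ hq0]
    calc E * q ≤ E * 1 := mul_le_mul_of_nonneg_left hq1 (by linarith)
      _ ≤ C₀ * E := by nlinarith
  have hT0 : 0 < T := by linarith
  -- the threshold
  have hTL : 10 ^ 13 * 11 * T ≤ L * (b * s) := by
    have h1 : q * (10 ^ 13 * 11 * T) ≤ q * (L * (b * s)) := by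
      calc q * (10 ^ 13 * 11 * T) = 10 ^ 13 * 11 * (T * q) := by ring
        _ = 10 ^ 13 * 11 * C₀ * E := by rw [hTq]; ring
        _ ≤ L * (q * b * s) := hL
        _ = q * (L * (b * s)) := by ring
    exact le_of_mul_le_mul_left h1 (by positivity)
  have hbs : b * s ≤ 1 := by
    calc b * s ≤ 1 * 1 := mul_le_mul hb1 hs1 hs0.le zero_le_one
      _ = 1 := one_mul 1
  have hTL1 : T ≤ L := by
    have h1 : (L : ℝ) * (b * s) ≤ L * 1 := mul_le_mul_of_nonneg_left hbs hL0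
    linarith
  have hLs : (L : ℝ) * (b * s) ≤ L * s := by
    refine mul_le_mul_of_nonneg_left ?_ hL0
    calc b * s ≤ 1 * s := mul_le_mul_of_nonneg_right hb1 hs0.le
      _ = s := one_mul s
  obtain ⟨x, hx⟩ : ∃ x, x = 1 / b * (8 * T + 3 * E) := ⟨_, rfl⟩
  have hbx : b * x = 8 * T + 3 * E := by
    rw [hx]
    field_simp
  by_cases hkx : (k : ℝ) ≤ x
  · refine Pool.Agent.Helper13.PC.low hA h ?_ hk ?_
    · rw [← hs]
      linarith
    · rw [← hs]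
      have h1 : b * (10 ^ 13 * k) ≤ b * (L * s) := by
        calc b * (10 ^ 13 * k) ≤ b * (10 ^ 13 * x) := by gcongr
          _ = 10 ^ 13 * (b * x) := by ring
          _ = 10 ^ 13 * (8 * T + 3 * E) := by rw [hbx]
          _ ≤ 10 ^ 13 * 11 * T := by linarith
          _ ≤ L * (b * s) := hTL
          _ = b * (L * s) := by ring
      exact le_of_mul_le_mul_left h1 hb
  push Not at hkx
  by_cases hk2 : (P.natDegree : ℝ) ≤ k + L / 148
  · exact h.top k hk hk2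
  push Not at hk2
  obtain ⟨r, hr0, hr6, hTr, hm⟩ := hex b κ ε E hA L P h k T hT0 hTL1 (by rw [← hx]; linarith) hk2
  refine (hbulk b κ ε E hA L P h r hr0 hr6 ?_ k hk hm).le
  refine le_trans ?_ hTr
  rw [hT, ← hq]
  gcongr

end Pool.Agent.Helper10.PC
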