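import Pool.Agent.Helper10.PC.Defs
import Pool.Agent.Helper3.EVC.E04
import Pool.Agent.Helper3.EVC.E07
import Pool.Agent.Helper3.EVC.E20a

/-!
# Root counts and moments from the hypothesis `HP`, with explicit constants
-/

set_option autoImplicit false

namespace Pool.Agent.Helper10.PC

open Polynomial EVC

theorem card_Z_le {L : ℕ} {P : ℝ[X]} (h : Nice L P) : 2 * ((Z P).card : ℝ) ≤ L := by
  have h1 : (Z P).card ≤ P.natDegree := by
    unfold Z
    exact (card_roots' _).trans natDegree_map_le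
  have := h.deg
  have h2 : 2 * (Z P).card ≤ L := by omega
  exact_mod_cast h2

theorem M_le_card (P : ℝ[X]) (r : ℝ) : M P r ≤ (Z P).card := by
  unfold M
  have h1 := Multiset.sum_le_card_nsmul ((Z P).map fun ρ => min 1 (r / ‖ρ‖)) 1 (by
    intro x hx
    obtain ⟨ρ, _, rfl⟩ := Multiset.mem_map.1 hx
    exact min_le_left _ _)
  rw [Multiset.card_map, nsmul_eq_mul, mul_one] at h1
  exact h1

open Classical in
theorem M_step (P : ℝ[X]) {r : ℝ} (hr : 0 < r) :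
    M P r ≤ cnt P (4 * r) + 1 / 4 * M P (4 * r) := by
  have key : ∀ S : Multiset ℂ, (S.map fun ρ => min 1 (r / ‖ρ‖)).sum ≤
      ((S.filter (fun ρ => ‖ρ‖ ≤ 4 * r)).card : ℝ) +
        1 / 4 * (S.map fun ρ => min 1 (4 * r / ‖ρ‖)).sum := by
    intro S
    induction S using Multiset.induction with
    | empty => simp
    | cons ρ S ih =>
      rw [Multiset.map_cons, Multiset.sum_cons, Multiset.map_cons, Multiset.sum_cons]
      have hnn : 0 ≤ 4 * r / ‖ρ‖ := by positivity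
      by_cases hρ : ‖ρ‖ ≤ 4 * r
      · rw [Multiset.filter_cons_of_pos (p := fun ρ : ℂ => ‖ρ‖ ≤ 4 * r) S hρ, Multiset.card_cons]
        push_cast
        have h1 : min 1 (r / ‖ρ‖) ≤ 1 := min_le_left _ _
        have h2 : 0 ≤ min 1 (4 * r / ‖ρ‖) := le_min zero_le_one hnn
        linarith
      · rw [Multiset.filter_cons_of_neg (p := fun ρ : ℂ => ‖ρ‖ ≤ 4 * r) S hρ]
        push Not at hρ
        have hρ0 : 0 < ‖ρ‖ := lt_trans (by positivity) hρ
        have h1 : min 1 (4 * r / ‖ρ‖) = 4 * r / ‖ρ‖ := by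
          apply min_eq_right
          rw [div_le_one hρ0]
          exact hρ.le
        have h2 : min 1 (r / ‖ρ‖) ≤ r / ‖ρ‖ := min_le_right _ _
        have h3 : 1 / 4 * (4 * r / ‖ρ‖) = r / ‖ρ‖ := by ring
        rw [h1]
        linarith
  exact key (Z P)

theorem A_nonneg (r : ℝ) : 0 ≤ A r := Real.arsinh_nonneg_iff.2 (by positivity)

theorem A_le (r : ℝ) : A r ≤ √r / 2 := by
  have h4 := Real.self_le_sinh_iff.2 (A_nonneg r)
  unfold A at h4 ⊢
  rwa [Real.sinh_arsinh] at h4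

theorem sqrt_four_mul (r : ℝ) : √(4 * r) = 2 * √r := by
  rw [Real.sqrt_mul (by norm_num)]
  congr 1
  rw [show (4 : ℝ) = 2 ^ 2 by norm_num]
  exact Real.sqrt_sq (by norm_num)

variable {b κ ε E : ℝ} {L : ℕ} {P : ℝ[X]}

/-- the value at a positive number -/
theorem HP.eval_le (h : HP b κ ε E L P) {r : ℝ} (hr : 0 < r) (h6 : r ≤ 600) :
    P.eval r ≤ Real.exp (L * A r + E) := by
  have hi := h.hi r 0 hr h6 (by rw [abs_zero]; exact Real.pi_pos.le)
  have e1 : aeval (pt r 0) P = ((P.eval r : ℝ) : ℂ) := by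
    unfold pt
    rw [Complex.ofReal_zero, zero_mul, Complex.exp_zero, mul_one]
    exact aeval_algebraMap_apply_eq_algebraMap_eval r P
  rw [e1, Complex.norm_real, Real.norm_of_nonneg (h.toNice.eval_pos hr).le, Real.cos_zero, sub_self,
    mul_zero, sub_zero] at hi
  exact hi

theorem cnt_le (h : HP b κ ε E L P) {s : ℝ} (hs : 0 < s) (h2 : s ≤ 300) :
    (cnt P s : ℝ) ≤ 2 * (L * √s + E) := by
  have hj := jensen h.toNice hs
  have hi := h.eval_le (r := 2 * s) (by positivity) (by linarith)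
  have hlg := Real.log_le_log (by positivity) (hj.trans hi)
  rw [Real.log_exp, Real.log_pow] at hlg
  have hsq : √(2 * s) / 2 ≤ √s := by
    have h3 : √(2 * s) ≤ √(4 * s) := Real.sqrt_le_sqrt (by linarith)
    rw [sqrt_four_mul] at h3
    linarith
  have hL0 : (0 : ℝ) ≤ L := Nat.cast_nonneg L
  have h5 : (L : ℝ) * A (2 * s) ≤ L * √s := mul_le_mul_of_nonneg_left ((A_le _).trans hsq) hL0
  have hl2 : (1 : ℝ) / 2 ≤ Real.log 2 := by
    have := Real.log_two_gt_d9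
    linarith
  have h8 : (cnt P s : ℝ) * (1 / 2) ≤ (cnt P s : ℝ) * Real.log 2 :=
    mul_le_mul_of_nonneg_left hl2 (Nat.cast_nonneg _)
  linarith

/-- **The count.** -/
theorem M_le (h : HP b κ ε E L P) (hE : 0 ≤ E) {r : ℝ} (hr : 0 < r) :
    M P r ≤ 8 * (L * √r) + 3 * E := by
  have hL0 : (0 : ℝ) ≤ L := Nat.cast_nonneg L
  have base : ∀ r : ℝ, 1 / 256 ≤ r → M P r ≤ 8 * (L * √r) + 3 * E := by
    intro r hr
    have h1 := M_le_card P r
    have h2 := card_Z_le h.toNice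
    have h3 : (1 : ℝ) / 16 ≤ √r := by
      apply Real.le_sqrt_of_sq_le
      linarith
    have h4 : (L : ℝ) * (1 / 16) ≤ L * √r := mul_le_mul_of_nonneg_left h3 hL0
    linarith
  have key : ∀ n : ℕ, ∀ r : ℝ, 0 < r → 1 / 256 ≤ 4 ^ n * r →
      M P r ≤ 8 * (L * √r) + 3 * E := by
    intro n
    induction n with
    | zero =>
      intro r _ h3
      rw [pow_zero, one_mul] at h3
      exact base r h3
    | succ n ih =>
      intro r hr h3
      by_cases h4 : 1 / 256 ≤ r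
      · exact base r h4
      · push Not at h4
        have h5 := ih (4 * r) (by linarith) (by
          rw [pow_succ] at h3
          linarith)
        have h6 := M_step P hr
        have h7 := cnt_le h (s := 4 * r) (by positivity) (by linarith)
        rw [sqrt_four_mul] at h5 h7
        have h9 : 0 ≤ (L : ℝ) * √r := by positivity
        have e1 : (L : ℝ) * (2 * √r) = 2 * (L * √r) := by ring
        rw [e1] at h5 h7
        linarith
  obtain ⟨n, hn⟩ := pow_unbounded_of_one_lt (1 / 256 / r) (show (1 : ℝ) < 4 by norm_num)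
  exact key n r hr ((div_lt_iff₀ hr).1 hn).le

theorem norm_p_le_inv {r b : ℝ} {ρ : ℂ} (hr : 0 < r) (hb : 0 < b)
    (hd : b * (r + ‖ρ‖) ≤ ‖(r : ℂ) - ρ‖) : ‖p r ρ‖ ≤ 1 / b := by
  have h1 : 0 < r + ‖ρ‖ := by positivity
  have h2 : 0 < ‖(r : ℂ) - ρ‖ := lt_of_lt_of_le (by positivity) hd
  rw [p, norm_div, Complex.norm_real, Real.norm_eq_abs, abs_of_pos hr, div_le_div_iff₀ h2 hb]
  nlinarith [norm_nonneg ρ]

theorem norm_pp_le {r b : ℝ} {ρ : ℂ} (hr : 0 < r) (hb : 0 < b)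
    (hd : b * (r + ‖ρ‖) ≤ ‖(r : ℂ) - ρ‖) :
    ‖p r ρ * (1 - p r ρ)‖ ≤ 1 / b ^ 2 * min 1 (r / ‖ρ‖) := by
  have h1 : 0 < r + ‖ρ‖ := by positivity
  have h2 : 0 < ‖(r : ℂ) - ρ‖ := lt_of_lt_of_le (by positivity) hd
  have h3 : (r : ℂ) - ρ ≠ 0 := norm_pos_iff.1 h2
  have h4 : p r ρ * (1 - p r ρ) = -((r : ℂ) * ρ / ((r : ℂ) - ρ) ^ 2) := by
    rw [p]
    field_simp
    ring
  rw [h4, norm_neg, norm_div, norm_mul, norm_pow, Complex.norm_real, Real.norm_eq_abs,
    abs_of_pos hr]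
  have h5 : r * ‖ρ‖ / ‖(r : ℂ) - ρ‖ ^ 2 ≤ r * ‖ρ‖ / (b * (r + ‖ρ‖)) ^ 2 := by
    gcongr
  refine h5.trans ?_
  rcases eq_or_lt_of_le (norm_nonneg ρ) with h0 | h0
  · rw [← h0]
    simp
  · have h6 : r * ‖ρ‖ / (b * (r + ‖ρ‖)) ^ 2 = 1 / b ^ 2 * (r * ‖ρ‖ / (r + ‖ρ‖) ^ 2) := by
      field_simp
    rw [h6]
    refine mul_le_mul_of_nonneg_left (le_min ?_ ?_) (by positivity)
    · rw [div_le_one (by positivity)]
      nlinarith
    · rw [div_le_div_iff₀ (by positivity) h0]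
      nlinarith [mul_pos hr h0, mul_pos (mul_pos hr h0) hr, mul_pos hr hr]

/-- `W ≤ b⁻² M` -/
theorem W_le_M {P : ℝ[X]} {r b : ℝ} (hr : 0 < r) (hb : 0 < b)
    (hd : ∀ ρ ∈ Z P, b * (r + ‖ρ‖) ≤ ‖(r : ℂ) - ρ‖) : W P r ≤ 1 / b ^ 2 * M P r := by
  rw [W, M, ← Multiset.sum_map_mul_left]
  exact Multiset.sum_map_le_sum_map _ _ fun ρ hρ => norm_pp_le hr hb (hd ρ hρ)

theorem mean_le (h : HP b κ ε E L P) (hb : 0 < b) (hE : 0 ≤ E) {r : ℝ} (hr : 0 < r) :
    mean P r ≤ 1 / b * (8 * (L * √r) + 3 * E) := by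
  have h1 := mean_le_M h.toNice hb hr (fun ρ hρ => h.dist ρ hρ r hr) (mean_eq h.toNice hr)
  rw [one_div]
  exact h1.trans (mul_le_mul_of_nonneg_left (M_le h hE hr) (by positivity))

theorem W_le (h : HP b κ ε E L P) (hb : 0 < b) (hE : 0 ≤ E) {r : ℝ} (hr : 0 < r) :
    W P r ≤ 1 / b ^ 2 * (8 * (L * √r) + 3 * E) :=
  (W_le_M hr hb (fun ρ hρ => h.dist ρ hρ r hr)).trans
    (mul_le_mul_of_nonneg_left (M_le h hE hr) (by positivity))

end Pool.Agent.Helper10.PC
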