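import Pool.Agent.Helper3.EVC.Defs

/-!
# Core with explicit polynomial constants: the hypothesis on one polynomial

`P : ℝ[X]` has nonnegative coefficients, `P(0) ≥ 1` and `2 * natDegree ≤ L`; `b` is the zero free
sector, the roots of modulus `< ε` are within 60 degrees of the negative axis.
-/

set_option autoImplicit false

namespace Pool.Agent.Helper10.PC

open Polynomial EVC

/-- The hypothesis on one polynomial. -/
structure HP (b κ ε E : ℝ) (L : ℕ) (P : ℝ[X]) : Prop extends Nice L P where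
  dist : ∀ ρ ∈ Z P, ∀ r : ℝ, 0 < r → b * (r + ‖ρ‖) ≤ ‖(r : ℂ) - ρ‖
  near : ∀ ρ ∈ Z P, ‖ρ‖ < ε → ρ.re < 0 ∧ ρ.im ^ 2 ≤ 3 * ρ.re ^ 2
  far : ∀ ρ ∈ Z P, ‖ρ‖ ≤ 8
  lo : ∀ r : ℝ, 0 < r → r ≤ 600 → Real.exp (L * A r - E) ≤ P.eval r
  hi : ∀ r θ : ℝ, 0 < r → r ≤ 600 → |θ| ≤ Real.pi →
    ‖aeval (pt r θ) P‖ ≤ Real.exp (L * A r + E - κ * (L * √r) * (1 - Real.cos θ))
  top : ∀ k : ℕ, 1 ≤ k → (P.natDegree : ℝ) ≤ k + L / 148 →
    P.coeff (k - 1) * P.coeff (k + 1) ≤ P.coeff k ^ 2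

/-- the parameters are admissible -/
structure AdmP (b κ ε E : ℝ) : Prop where
  hb : 0 < b
  hb1 : b ≤ 1
  hκ : 0 < κ
  hκ1 : κ ≤ 1
  hε : 0 < ε
  hε1 : ε ≤ 1
  hE : 1 ≤ E

end Pool.Agent.Helper10.PC
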