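import Pool.Agent.Helper10.PC.Count

/-!
# Existence of the radius whose mean is `k`
-/

set_option autoImplicit false

namespace Pool.Agent.Helper10.PC

open Polynomial EVC

variable {b κ ε E : ℝ} {L : ℕ} {P : ℝ[X]}

theorem card_eq (P : ℝ[X]) : (Z P).card = P.natDegree := by
  unfold Z
  rw [Polynomial.splits_iff_card_roots.1 (IsAlgClosed.splits (P.map (algebraMap ℝ ℂ))),
    natDegree_map]

theorem re_sum_map' (S : Multiset ℂ) (f : ℂ → ℂ) :
    (S.map f).sum.re = (S.map fun ρ => (f ρ).re).sum := by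
  induction S using Multiset.induction_on with
  | empty => simp
  | cons ρ S ih =>
    rw [Multiset.map_cons, Multiset.sum_cons, Multiset.map_cons, Multiset.sum_cons, Complex.add_re, ih]

theorem mean_600 (h : HP b κ ε E L P) : (P.natDegree : ℝ) - L / 148 ≤ mean P 600 := by
  have h1 : mean P 600 = ((Z P).map fun ρ => (p 600 ρ).re).sum := by
    rw [← re_sum_map', mean_eq h.toNice (by norm_num), Complex.ofReal_re]
  have h2 : ((Z P).map fun _ : ℂ => (1 - 8 / 592 : ℝ)).sum ≤ ((Z P).map fun ρ => (p 600 ρ).re).sum := by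
    refine Multiset.sum_map_le_sum_map _ _ fun ρ hρ => ?_
    have h3 := h.far ρ hρ
    have h4 : (592 : ℝ) ≤ ‖((600 : ℝ) : ℂ) - ρ‖ := by
      have h5 := norm_sub_norm_le ((600 : ℝ) : ℂ) ρ
      rw [Complex.norm_real, Real.norm_of_nonneg (by norm_num)] at h5
      linarith
    have h6 : ((600 : ℝ) : ℂ) - ρ ≠ 0 := norm_pos_iff.1 (by linarith)
    have h7 : 1 - p 600 ρ = -ρ / (((600 : ℝ) : ℂ) - ρ) := by
      unfold p
      field_simp
      ring
    have h8 : ‖1 - p 600 ρ‖ ≤ 8 / 592 := by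
      rw [h7, norm_div, norm_neg]
      exact div_le_div₀ (by norm_num) h3 (by norm_num) h4
    have h9 := (Complex.re_le_norm (1 - p 600 ρ)).trans h8
    rw [Complex.sub_re, Complex.one_re] at h9
    linarith
  rw [Multiset.map_const', Multiset.sum_replicate, nsmul_eq_mul, card_eq] at h2
  have h3 : 2 * (P.natDegree : ℝ) ≤ L := by exact_mod_cast h.deg
  rw [h1]
  linarith

theorem exists_r (hA : AdmP b κ ε E) (h : HP b κ ε E L P) {k : ℕ} {T : ℝ} (hT : 0 < T)
    (hTL : T ≤ L) (hk : 1 / b * (8 * T + 3 * E) ≤ k) (hk2 : (k : ℝ) + L / 148 < P.natDegree) :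
    ∃ r : ℝ, 0 < r ∧ r ≤ 600 ∧ T ≤ L * √r ∧ mean P r = k := by
  have hL : (0 : ℝ) < L := by linarith
  obtain ⟨r₀, hr₀⟩ : ∃ r₀ : ℝ, r₀ = (T / L) ^ 2 := ⟨_, rfl⟩
  have hs : √r₀ = T / L := by
    rw [hr₀]
    exact Real.sqrt_sq (by positivity)
  have h0 : 0 < r₀ := by rw [hr₀]; positivity
  have h1 : r₀ ≤ 1 := by
    rw [hr₀]
    exact pow_le_one₀ (by positivity) ((div_le_one hL).2 hTL)
  have hLs : (L : ℝ) * √r₀ = T := by
    rw [hs]
    field_simp
  have h2 := mean_le h hA.hb (by linarith [hA.hE]) h0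
  rw [hLs] at h2
  have h3 := mean_600 h
  have hcont : ContinuousOn (mean P) (Set.Icc r₀ 600) := by
    unfold mean
    refine ContinuousOn.div (by fun_prop) (by fun_prop) ?_
    intro x hx
    exact (h.toNice.eval_pos (lt_of_lt_of_le h0 hx.1)).ne'
  obtain ⟨r, hr, hrk⟩ := intermediate_value_Icc (by linarith) hcont
    (show (k : ℝ) ∈ Set.Icc (mean P r₀) (mean P 600) from ⟨by linarith, by linarith⟩)
  refine ⟨r, lt_of_lt_of_le h0 hr.1, hr.2, ?_, hrk⟩
  rw [← hLs]
  exact mul_le_mul_of_nonneg_left (Real.sqrt_le_sqrt hr.1) hL.le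

end Pool.Agent.Helper10.PC
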