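import Pool.Agent.Helper10.PC.Newton

/-!
# The far part: the first coefficients of a polynomial whose roots are large are log-concave
-/

set_option autoImplicit false

namespace Pool.Agent.Helper10.PC

open Polynomial EVC Pool.Agent.Helper76.Conway

theorem geom_le {q : ℝ} (h0 : 0 ≤ q) (h1 : q ≤ 1 / 2) (n : ℕ) :
    ∑ i ∈ Finset.range n, q ^ (i + 1) ≤ 2 * q * (1 - q ^ n) := by
  induction n with
  | zero => simp
  | succ n ih =>
    rw [Finset.sum_range_succ]
    have h2 : 0 ≤ q ^ (n + 1) := by positivity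
    have h3 : q ^ (n + 1) * q ≤ q ^ (n + 1) * (1 / 2) := mul_le_mul_of_nonneg_left h1 h2
    have e : 2 * q * (1 - q ^ n) = 2 * q - 2 * q ^ (n + 1) := by ring
    have e' : 2 * q * (1 - q ^ (n + 1)) = 2 * q - 2 * (q ^ (n + 1) * q) := by ring
    rw [e] at ih
    rw [e']
    linarith

theorem rec_bound {f σ : ℕ → ℝ} {Λ R l K : ℝ} {J : ℕ} (hR : 0 < R) (hl : 0 < l) (hf0 : 0 < f 0)
    (hrec : ∀ j : ℕ, ((j : ℝ) + 1) * f (j + 1) = ∑ i ∈ Finset.range (j + 1), σ i * f (j - i))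
    (hσ0 : σ 0 = l) (hσ : ∀ i, |σ i| ≤ Λ * (R⁻¹) ^ i) (hΛ : Λ ≤ K * l) (hK : 1 ≤ K)
    (hJ : 12 * K * (J : ℝ) ^ 2 ≤ l * R) (hJ1 : 1 ≤ J) :
    ∀ j : ℕ, j ≤ J → 0 < f j ∧ 0 < f (j + 1) ∧
      |((j : ℝ) + 1) * f (j + 1) - l * f j| ≤ l * f j * (1 / (3 * J)) := by
  have hJr : (1 : ℝ) ≤ J := by exact_mod_cast hJ1
  have hδ : (1 : ℝ) / (3 * J) ≤ 1 / 3 := by
    rw [div_le_div_iff₀ (by positivity) (by norm_num)]
    linarith
  have hδ0 : (0 : ℝ) < 1 / (3 * J) := by positivity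
  have hlR : 0 < l * R := mul_pos hl hR
  have hΛ0 : 0 ≤ Λ := by
    have := (abs_nonneg _).trans (hσ 0)
    simpa using this
  intro j
  induction j using Nat.strong_induction_on with
  | _ j ih =>
  intro hj
  have hjr : (j : ℝ) ≤ J := by exact_mod_cast hj
  have hj0 : (0 : ℝ) ≤ j := Nat.cast_nonneg j
  have hfj : 0 < f j := by
    rcases j with _ | j
    · exact hf0
    · exact (ih j (by omega) (by omega)).2.1
  -- ratios
  have hstep : ∀ m : ℕ, m < j → f m ≤ 2 * j / l * f (m + 1) := by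
    intro m hm
    obtain ⟨h1, h2, h3⟩ := ih m hm (by omega)
    have h4 := (abs_le.1 h3).1
    have h5 : l * f m * (1 / (3 * J)) ≤ l * f m * (1 / 3) :=
      mul_le_mul_of_nonneg_left hδ (by positivity)
    have h6 : l * f m ≤ 2 * (((m : ℝ) + 1) * f (m + 1)) := by
      have : 0 < l * f m := by positivity
      linarith
    have h7 : ((m : ℝ) + 1) ≤ j := by exact_mod_cast hm
    have h8 : ((m : ℝ) + 1) * f (m + 1) ≤ j * f (m + 1) := mul_le_mul_of_nonneg_right h7 h2.le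
    rw [div_mul_eq_mul_div, le_div_iff₀ hl]
    linarith
  have hpow : ∀ i : ℕ, i ≤ j → 0 < f (j - i) ∧ f (j - i) ≤ (2 * j / l) ^ i * f j := by
    intro i
    induction i with
    | zero => intro _; simpa using hfj
    | succ i ih2 =>
      intro hi
      obtain ⟨h1, h2⟩ := ih2 (by omega)
      have e : j - i = j - (i + 1) + 1 := by omega
      have h3 := hstep (j - (i + 1)) (by omega)
      rw [← e] at h3
      refine ⟨(ih (j - (i + 1)) (by omega) (by omega)).1, h3.trans ?_⟩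
      rw [pow_succ, mul_comm ((2 * (j : ℝ) / l) ^ i), mul_assoc]
      exact mul_le_mul_of_nonneg_left h2 (by positivity)
  obtain ⟨q, hq⟩ : ∃ q, q = 2 * (j : ℝ) / (l * R) := ⟨_, rfl⟩
  have hq0 : 0 ≤ q := by rw [hq]; positivity
  have hKJ : 12 * K * ((j : ℝ) * J) ≤ l * R := by
    refine le_trans ?_ hJ
    rw [sq]
    exact mul_le_mul_of_nonneg_left (mul_le_mul_of_nonneg_right hjr (by positivity)) (by positivity)
  have hjJ : (j : ℝ) ≤ K * (j * J) := by
    calc (j : ℝ) = 1 * (j * 1) := by ring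
      _ ≤ K * (j * J) := by gcongr
  have hq1 : q ≤ 1 / 2 := by
    rw [hq, div_le_iff₀ hlR]
    linarith
  have hsum : |((j : ℝ) + 1) * f (j + 1) - l * f j| ≤ Λ * f j * (2 * q) := by
    rw [hrec j, Finset.sum_range_succ', hσ0, Nat.sub_zero, add_sub_cancel_right]
    refine (Finset.abs_sum_le_sum_abs _ _).trans ?_
    have h1 : ∀ i ∈ Finset.range j, |σ (i + 1) * f (j - (i + 1))| ≤ Λ * f j * q ^ (i + 1) := by
      intro i hi
      obtain ⟨h2, h3⟩ := hpow (i + 1) (by have := Finset.mem_range.1 hi; omega)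
      rw [abs_mul, abs_of_pos h2]
      calc |σ (i + 1)| * f (j - (i + 1)) ≤ (Λ * (R⁻¹) ^ (i + 1)) * ((2 * j / l) ^ (i + 1) * f j) :=
            mul_le_mul (hσ _) h3 h2.le (by positivity)
        _ = Λ * f j * q ^ (i + 1) := by
            have e : q = R⁻¹ * (2 * j / l) := by
              rw [hq]
              field_simp
            rw [e, mul_pow]
            ring
    refine (Finset.sum_le_sum h1).trans ?_
    rw [← Finset.mul_sum]
    refine mul_le_mul_of_nonneg_left ((geom_le hq0 hq1 j).trans ?_) (by positivity)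
    have : 0 ≤ q ^ j := by positivity
    nlinarith
  have hfin : Λ * f j * (2 * q) ≤ l * f j * (1 / (3 * J)) := by
    have h1 : K * (2 * q) ≤ 1 / (3 * J) := by
      rw [hq, le_div_iff₀ (by positivity)]
      have e : K * (2 * (2 * (j : ℝ) / (l * R))) * (3 * J) = (12 * K * (j * J)) / (l * R) := by
        field_simp
        ring
      rw [e, div_le_one hlR]
      exact hKJ
    calc Λ * f j * (2 * q) ≤ K * l * f j * (2 * q) := by gcongr
      _ = l * f j * (K * (2 * q)) := by ring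
      _ ≤ _ := mul_le_mul_of_nonneg_left h1 (by positivity)
  have hmain := hsum.trans hfin
  refine ⟨hfj, ?_, hmain⟩
  have h4 := (abs_le.1 hmain).1
  have h5 : l * f j * (1 / (3 * J)) ≤ l * f j * (1 / 3) :=
    mul_le_mul_of_nonneg_left hδ (by positivity)
  have h6 : 0 < ((j : ℝ) + 1) * f (j + 1) := by
    have : 0 < l * f j := by positivity
    linarith
  exact (pos_iff_pos_of_mul_pos h6).1 (by positivity)

theorem tp_of_lc {f : ℕ → ℝ} {K : ℕ} (hpos : ∀ m, m ≤ K → 0 < f m)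
    (hlc : ∀ m, m + 2 ≤ K → f m * f (m + 2) ≤ f (m + 1) ^ 2) :
    ∀ m n : ℕ, m ≤ n → n + 2 ≤ K → f m * f (n + 2) ≤ f (m + 1) * f (n + 1) := by
  intro m n hmn
  induction n, hmn using Nat.le_induction with
  | base =>
    intro h
    have := hlc m h
    rwa [sq] at this
  | succ n hmn ih =>
    intro h
    have h1 := ih (by omega)
    have h2 := hlc (n + 1) (by omega)
    have p1 := hpos m (by omega)
    have p2 := hpos (m + 1) (by omega)
    have p3 := hpos (n + 1) (by omega)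
    have p4 := hpos (n + 2) (by omega)
    have p5 := hpos (n + 3) (by omega)
    have h3 : (f m * f (n + 2)) * (f (n + 1) * f (n + 3)) ≤
        (f (m + 1) * f (n + 1)) * f (n + 2) ^ 2 :=
      mul_le_mul h1 h2 (by positivity) (by positivity)
    have h4 : 0 < f (n + 1) * f (n + 2) := by positivity
    refine le_of_mul_le_mul_left ?_ h4
    calc f (n + 1) * f (n + 2) * (f m * f (n + 3)) =
        (f m * f (n + 2)) * (f (n + 1) * f (n + 3)) := by ring
      _ ≤ _ := h3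
      _ = f (n + 1) * f (n + 2) * (f (m + 1) * f (n + 2)) := by ring

theorem TPK_of_lc {F : ℝ[X]} {K : ℕ} (hpos : ∀ m, m ≤ K → 0 < F.coeff m)
    (hlc : ∀ m, m + 2 ≤ K → F.coeff m * F.coeff (m + 2) ≤ F.coeff (m + 1) ^ 2) :
    TPK (K : ℤ) F := by
  have htr : ∀ m : ℕ, m ≤ K → tr (K : ℤ) F m = F.coeff m := by
    intro m hm
    unfold tr
    rw [if_pos (by exact_mod_cast hm), cz_natCast]
  have hneg : ∀ i : ℤ, i < 0 → tr (K : ℤ) F i = 0 := by
    intro i hi
    unfold tr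
    split_ifs
    · exact cz_neg F hi
    · rfl
  have hbig : ∀ i : ℤ, (K : ℤ) < i → tr (K : ℤ) F i = 0 := by
    intro i hi
    unfold tr
    rw [if_neg (not_le.2 hi)]
  have hnn : ∀ i : ℤ, 0 ≤ tr (K : ℤ) F i := by
    intro i
    by_cases h1 : i < 0
    · rw [hneg i h1]
    · by_cases h2 : (K : ℤ) < i
      · rw [hbig i h2]
      · obtain ⟨m, rfl⟩ : ∃ m : ℕ, i = m := ⟨i.toNat, by omega⟩
        rw [htr m (by omega)]
        exact (hpos m (by omega)).le
  refine ⟨hnn, fun i j hij => ?_⟩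
  by_cases h1 : i - 1 < 0
  · rw [hneg _ h1, zero_mul]
    exact mul_nonneg (hnn _) (hnn _)
  by_cases h2 : (K : ℤ) < j + 1
  · rw [hbig _ h2, mul_zero]
    exact mul_nonneg (hnn _) (hnn _)
  obtain ⟨m, hm⟩ : ∃ m : ℕ, i - 1 = m := ⟨(i - 1).toNat, by omega⟩
  obtain ⟨n, hn⟩ : ∃ n : ℕ, j - 1 = n := ⟨(j - 1).toNat, by omega⟩
  have e1 : i = ((m + 1 : ℕ) : ℤ) := by push_cast; omega
  have e2 : j = ((n + 1 : ℕ) : ℤ) := by push_cast; omega
  have e3 : j + 1 = ((n + 2 : ℕ) : ℤ) := by push_cast; omega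
  rw [hm, e3, e1, e2, htr m (by omega), htr (n + 2) (by omega), htr (m + 1) (by omega),
    htr (n + 1) (by omega)]
  exact tp_of_lc hpos hlc m n (by omega) (by omega)

/-- **The far part.** -/
theorem far_tpk {F : ℝ[X]} {R K : ℝ} {J : ℕ} (h0 : 0 < F.coeff 0) (hR : 0 < R)
    (hZ : ∀ ρ ∈ Z F, R < ‖ρ‖) (hl : 0 < ((Z F).map fun ρ => (-ρ⁻¹).re).sum)
    (hΛ : ((Z F).map fun ρ => 1 / ‖ρ‖).sum ≤ K * ((Z F).map fun ρ => (-ρ⁻¹).re).sum)
    (hK : 1 ≤ K) (hJ : 12 * K * (J : ℝ) ^ 2 ≤ ((Z F).map fun ρ => (-ρ⁻¹).re).sum * R) (hJ1 : 1 ≤ J) :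
    TPK ((J + 1 : ℕ) : ℤ) F := by
  obtain ⟨l, hl'⟩ : ∃ l, l = ((Z F).map fun ρ => (-ρ⁻¹).re).sum := ⟨_, rfl⟩
  rw [← hl'] at hl hΛ hJ
  have hb := rec_bound (f := F.coeff) (σ := fun i => (pw ((Z F).map fun ρ => -ρ⁻¹) i).re) hR hl h0
    (fun j => newton h0.ne' j) (by rw [hl']; exact pw_zero _) (fun i => pw_le hR hZ i) hΛ hK hJ hJ1
  have hJr : (1 : ℝ) ≤ J := by exact_mod_cast hJ1
  refine TPK_of_lc ?_ ?_
  · intro m hm
    rcases Nat.lt_or_ge m (J + 1) with h | h
    · exact (hb m (by omega)).1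
    · have : m = J + 1 := by omega
      rw [this]
      exact (hb J le_rfl).2.1
  · intro m hm
    obtain ⟨a1, a2, a3⟩ := hb m (by omega)
    obtain ⟨b1, b2, b3⟩ := hb (m + 1) (by omega)
    have a4 := (abs_le.1 a3).1
    have b4 := (abs_le.1 b3).2
    obtain ⟨d, hd⟩ : ∃ d, d = 1 / (3 * (J : ℝ)) := ⟨_, rfl⟩
    rw [← hd] at a4 b4
    have hm1 : ((m : ℝ) + 1) ≤ J := by
      have : m + 1 ≤ J := by omega
      exact_mod_cast this
    have hm0 : (0 : ℝ) ≤ m := Nat.cast_nonneg m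
    have hd0 : 0 < d := by rw [hd]; positivity
    have hdJ : d * (3 * J) = 1 := by
      rw [hd]
      field_simp
    have hd1 : d ≤ 1 / 3 := by
      rw [hd, div_le_div_iff₀ (by positivity) (by norm_num)]
      linarith
    have hkey : ((m : ℝ) + 1) * (1 + d) ≤ ((m : ℝ) + 2) * (1 - d) := by
      have : (2 * (m : ℝ) + 3) * d ≤ 1 := by
        calc (2 * (m : ℝ) + 3) * d ≤ (3 * J) * d := by
              refine mul_le_mul_of_nonneg_right ?_ hd0.le
              linarith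
          _ = 1 := by rw [mul_comm]; exact hdJ
      linarith
    push_cast at b4
    have h1 : l * (1 - d) * F.coeff m ≤ ((m : ℝ) + 1) * F.coeff (m + 1) := by linarith
    have h2 : ((m : ℝ) + 2) * F.coeff (m + 2) ≤ l * (1 + d) * F.coeff (m + 1) := by
      have e : ((m : ℝ) + 1 + 1) = (m : ℝ) + 2 := by ring
      rw [e] at b4
      linarith
    have h3 : (l * (1 - d) * F.coeff m) * (((m : ℝ) + 2) * F.coeff (m + 2)) ≤
        (((m : ℝ) + 1) * F.coeff (m + 1)) * (l * (1 + d) * F.coeff (m + 1)) := by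
      refine mul_le_mul h1 h2 ?_ (by positivity)
      exact mul_nonneg (by positivity) b2.le
    have h4 : 0 < l * (((m : ℝ) + 2) * (1 - d)) := by
      have : 0 < 1 - d := by linarith
      positivity
    refine le_of_mul_le_mul_left ?_ h4
    calc l * (((m : ℝ) + 2) * (1 - d)) * (F.coeff m * F.coeff (m + 2)) =
        (l * (1 - d) * F.coeff m) * (((m : ℝ) + 2) * F.coeff (m + 2)) := by ring
      _ ≤ _ := h3
      _ = l * (((m : ℝ) + 1) * (1 + d)) * F.coeff (m + 1) ^ 2 := by ring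
      _ ≤ l * (((m : ℝ) + 2) * (1 - d)) * F.coeff (m + 1) ^ 2 := by
        refine mul_le_mul_of_nonneg_right (mul_le_mul_of_nonneg_left hkey hl.le) (by positivity)

end Pool.Agent.Helper10.PC
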