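import Pool.Agent.Helper10.PC.Core
import Pool.Agent.Helper10.PC.Exists
import Pool.Agent.Helper14.PC.Bulk7

/-!
# The core with explicit polynomial constants
-/

set_option autoImplicit false

namespace Pool.Agent.Helper10.PC

open Polynomial EVC

/-- **The core.** All coefficients are log-concave as soon as `C E ≤ L (κ b)^7 b √ε`. -/
theorem corePoly : ∃ C : ℝ, 0 < C ∧ ∀ b κ ε E : ℝ, AdmP b κ ε E → ∀ (L : ℕ) (P : ℝ[X]),
    HP b κ ε E L P → C * E ≤ L * ((κ * b) ^ 7 * b * √ε) → ∀ k : ℕ, 1 ≤ k →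
      P.coeff (k - 1) * P.coeff (k + 1) ≤ P.coeff k ^ 2 := by
  obtain ⟨C, _, hbulk⟩ := Pool.Agent.Helper14.PC.bulk7
  exact corePoly_of hbulk fun b κ ε E hA L P h k T hT hTL hk hk2 => exists_r hA h hT hTL hk hk2

/-- the form with `E ^ 2` and `ε` -/
theorem corePoly' : ∃ C : ℝ, 0 < C ∧ ∀ b κ ε E : ℝ, AdmP b κ ε E → ∀ (L : ℕ) (P : ℝ[X]),
    HP b κ ε E L P → C * E ^ 2 / ((κ * b) ^ 8 * ε) ≤ L → ∀ k : ℕ, 1 ≤ k →
      P.coeff (k - 1) * P.coeff (k + 1) ≤ P.coeff k ^ 2 := by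
  obtain ⟨C, hC, h⟩ := corePoly
  refine ⟨C, hC, fun b κ ε E hA L P hP hL => h b κ ε E hA L P hP ?_⟩
  have hb := hA.hb
  have hκ := hA.hκ
  have hκ1 := hA.hκ1
  have hε := hA.hε
  have hε1 := hA.hε1
  have hE := hA.hE
  have hL0 : (0 : ℝ) ≤ L := Nat.cast_nonneg L
  rw [div_le_iff₀ (by positivity)] at hL
  have h1 : C * E ≤ C * E ^ 2 := mul_le_mul_of_nonneg_left (by nlinarith) hC.le
  refine h1.trans (hL.trans (mul_le_mul_of_nonneg_left ?_ hL0))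
  have h2 : ε ≤ √ε := by
    apply Real.le_sqrt_of_sq_le
    nlinarith
  have h3 : (κ * b) ^ 8 ≤ (κ * b) ^ 7 * b := by
    rw [pow_succ (κ * b) 7]
    refine mul_le_mul_of_nonneg_left ?_ (by positivity)
    nlinarith
  exact mul_le_mul h3 h2 hε.le (by positivity)

end Pool.Agent.Helper10.PC
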