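import Pool.Agent.Helper10.PC.Far
import Pool.Agent.Helper10.PC.Count

/-!
# The low coefficients
-/

set_option autoImplicit false

namespace Pool.Agent.Helper10.PC

open Polynomial EVC Pool.Agent.Helper76.Conway

theorem mean_mul {L : ℕ} {P : ℝ[X]} (h : Nice L P) {r : ℝ} (hr : 0 < r) :
    mean P r * P.eval r = ∑ k ∈ Finset.range (P.natDegree + 1), (k : ℝ) * (P.coeff k * r ^ k) := by
  have h0 := h.eval_pos hr
  unfold mean
  rw [div_mul_cancel₀ _ h0.ne', Polynomial.derivative_eval,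
    Polynomial.sum_over_range _ (by intro n; simp), Finset.mul_sum]
  refine Finset.sum_congr rfl fun k _ => ?_
  rcases Nat.eq_zero_or_pos k with rfl | hk
  · simp
  · obtain ⟨m, rfl⟩ : ∃ m, k = m + 1 := ⟨k - 1, by omega⟩
    rw [Nat.add_sub_cancel, pow_succ]
    ring

/-- Jensen: `P(r/16) ≥ P(r) 16^{-mean(r)}`. -/
theorem jensen_mean {L : ℕ} {P : ℝ[X]} (h : Nice L P) {b : ℝ} (hb : 0 < b) :
    P.eval b * Real.exp (-(Real.log 16 * mean P b)) ≤ P.eval (b / 16) := by
  have hm := mean_mul h hb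
  obtain ⟨m, hmdef⟩ : ∃ m, m = mean P b := ⟨_, rfl⟩
  rw [← hmdef] at hm ⊢
  have hP : P.eval b = ∑ k ∈ Finset.range (P.natDegree + 1), P.coeff k * b ^ k :=
    Polynomial.eval_eq_sum_range b
  have h1 : P.eval (b / 16) =
      ∑ k ∈ Finset.range (P.natDegree + 1), P.coeff k * b ^ k * Real.exp (-(Real.log 16 * k)) := by
    rw [Polynomial.eval_eq_sum_range]
    refine Finset.sum_congr rfl fun k _ => ?_
    have : Real.exp (-(Real.log 16 * k)) = ((16 : ℝ) ^ k)⁻¹ := by
      rw [Real.exp_neg, mul_comm, Real.exp_nat_mul, Real.exp_log (by norm_num : (0 : ℝ) < 16)]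
    rw [this, div_pow]
    ring
  have h2 : ∀ k ∈ Finset.range (P.natDegree + 1),
      P.coeff k * b ^ k * (Real.exp (-(Real.log 16 * m)) * (1 - Real.log 16 * (k - m))) ≤
        P.coeff k * b ^ k * Real.exp (-(Real.log 16 * k)) := by
    intro k _
    refine mul_le_mul_of_nonneg_left ?_ (mul_nonneg (h.nn k) (pow_nonneg hb.le k))
    have h3 : Real.exp (-(Real.log 16 * k)) =
        Real.exp (-(Real.log 16 * m)) * Real.exp (-(Real.log 16 * (k - m))) := by
      rw [← Real.exp_add]; congr 1; ring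
    rw [h3]
    refine mul_le_mul_of_nonneg_left ?_ (Real.exp_pos _).le
    have := Real.add_one_le_exp (-(Real.log 16 * (k - m)))
    linarith
  rw [h1]
  refine le_trans (le_of_eq ?_) (Finset.sum_le_sum h2)
  have h4 : ∑ k ∈ Finset.range (P.natDegree + 1),
      P.coeff k * b ^ k * (Real.exp (-(Real.log 16 * m)) * (1 - Real.log 16 * (k - m))) =
      Real.exp (-(Real.log 16 * m)) * ((1 + Real.log 16 * m) *
        ∑ k ∈ Finset.range (P.natDegree + 1), P.coeff k * b ^ k -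
        Real.log 16 * ∑ k ∈ Finset.range (P.natDegree + 1), (k : ℝ) * (P.coeff k * b ^ k)) := by
    rw [Finset.mul_sum, Finset.mul_sum, ← Finset.sum_sub_distrib, Finset.mul_sum]
    refine Finset.sum_congr rfl fun k _ => ?_
    ring
  rw [h4, ← hm, ← hP]
  ring

theorem A_ge {r : ℝ} (h : √r ≤ 1 / 50) : 49 / 100 * √r ≤ A r := by
  obtain ⟨x, hx⟩ : ∃ x, x = √r / 2 := ⟨_, rfl⟩
  have hx0 : 0 ≤ x := by rw [hx]; positivity
  have hx1 : x ≤ 1 / 100 := by rw [hx]; linarith
  have h1 : Real.exp (A r) = x + √(1 + x ^ 2) := by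
    unfold A; rw [← hx]; exact Real.exp_arsinh x
  have h2 : 1 + x ≤ Real.exp (A r) := by
    rw [h1]
    have : (1 : ℝ) ≤ √(1 + x ^ 2) := by
      rw [Real.one_le_sqrt]
      nlinarith
    linarith
  have h3 : Real.log (1 + x) ≤ A r := by
    rw [← Real.log_exp (A r)]
    exact Real.log_le_log (by linarith) h2
  have h4 := Real.one_sub_inv_le_log_of_pos (show 0 < 1 + x by linarith)
  have h5 : 98 / 100 * x ≤ 1 - (1 + x)⁻¹ := by
    have h6 : 1 - (1 + x)⁻¹ = x / (1 + x) := by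
      have : 1 + x ≠ 0 := by linarith
      field_simp
      ring
    rw [h6, le_div_iff₀ (by linarith)]
    nlinarith
  have h7 : 49 / 100 * √r = 98 / 100 * x := by rw [hx]; ring
  rw [h7]
  linarith

theorem log16 : Real.log 16 ≤ 27726 / 10000 := by
  have : Real.log 16 = 4 * Real.log 2 := by
    rw [show (16 : ℝ) = 2 ^ 4 by norm_num, Real.log_pow]
    norm_num
  rw [this]
  have := Real.log_two_lt_d9
  linarith

variable {b κ ε E : ℝ} {L : ℕ} {P : ℝ[X]}

/-- **The mean at a small radius is at least `L √r / 14`.** -/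
theorem mean_ge (h : HP b κ ε E L P) {r : ℝ} (hr : 0 < r) (hr1 : √r ≤ 1 / 50) (hr6 : r ≤ 600)
    (hE : 12 * E ≤ L * √r) (hE0 : 0 ≤ E) : 1 / 14 * (L * √r) ≤ mean P r := by
  have hL0 : (0 : ℝ) ≤ L := Nat.cast_nonneg L
  have h1 := jensen_mean h.toNice hr
  have h2 := h.lo r hr hr6
  have h3 := h.eval_le (r := r / 16) (by positivity) (by linarith)
  have h4 : Real.exp (L * A r - E) * Real.exp (-(Real.log 16 * mean P r)) ≤
      Real.exp (L * A (r / 16) + E) :=
    (mul_le_mul_of_nonneg_right h2 (Real.exp_pos _).le).trans (h1.trans h3)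
  rw [← Real.exp_add, Real.exp_le_exp] at h4
  have h5 : A (r / 16) ≤ √r / 8 := by
    refine (A_le _).trans ?_
    have : √(r / 16) = √r / 4 := by
      rw [Real.sqrt_div hr.le]
      congr 1
      rw [show (16 : ℝ) = 4 ^ 2 by norm_num]
      exact Real.sqrt_sq (by norm_num)
    rw [this]
    linarith
  have h6 := A_ge hr1
  have h7 : (L : ℝ) * A (r / 16) ≤ L * (√r / 8) := mul_le_mul_of_nonneg_left h5 hL0
  have h8 : (L : ℝ) * (49 / 100 * √r) ≤ L * A r := mul_le_mul_of_nonneg_left h6 hL0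
  obtain ⟨y, hy⟩ : ∃ y, y = (L : ℝ) * √r := ⟨_, rfl⟩
  have hy0 : 0 ≤ y := by rw [hy]; positivity
  have e7 : (L : ℝ) * (√r / 8) = y / 8 := by rw [hy]; ring
  have e8 : (L : ℝ) * (49 / 100 * √r) = 49 / 100 * y := by rw [hy]; ring
  rw [← hy] at hE ⊢
  rw [e7] at h7
  rw [e8] at h8
  have h9 : 365 / 1000 * y - 2 * E ≤ Real.log 16 * mean P r := by linarith
  by_contra hc
  push Not at hc
  have h10 : 0 < Real.log 16 := Real.log_pos (by norm_num)
  have h11 : Real.log 16 * mean P r ≤ Real.log 16 * (1 / 14 * y) :=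
    mul_le_mul_of_nonneg_left hc.le h10.le
  have h12 : Real.log 16 * (1 / 14 * y) ≤ 27726 / 10000 * (1 / 14 * y) :=
    mul_le_mul_of_nonneg_right log16 (by positivity)
  have h13 : Real.log 16 * mean P r < Real.log 16 * (1 / 14 * y) :=
    mul_lt_mul_of_pos_left hc h10
  linarith

open Classical in
theorem sum_filter_le (S : Multiset ℂ) (q : ℂ → Prop) (f g : ℂ → ℝ)
    (h1 : ∀ ρ ∈ S, q ρ → f ρ ≤ g ρ) (h2 : ∀ ρ ∈ S, ¬ q ρ → 0 ≤ g ρ) :
    ((S.filter q).map f).sum ≤ (S.map g).sum := by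
  induction S using Multiset.induction_on with
  | empty => simp
  | cons ρ S ih =>
    have ih' := ih (fun u hu => h1 u (Multiset.mem_cons_of_mem hu))
      (fun u hu => h2 u (Multiset.mem_cons_of_mem hu))
    rw [Multiset.map_cons, Multiset.sum_cons]
    by_cases hq : q ρ
    · rw [Multiset.filter_cons_of_pos S hq, Multiset.map_cons, Multiset.sum_cons]
      have := h1 ρ (Multiset.mem_cons_self _ _) hq
      linarith
    · rw [Multiset.filter_cons_of_neg S hq]
      have := h2 ρ (Multiset.mem_cons_self _ _) hq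
      linarith

open Classical in
theorem sum_filter_ge (S : Multiset ℂ) (q : ℂ → Prop) (f g : ℂ → ℝ)
    (h1 : ∀ ρ ∈ S, q ρ → g ρ ≤ f ρ) (h2 : ∀ ρ ∈ S, ¬ q ρ → g ρ ≤ 0) :
    (S.map g).sum ≤ ((S.filter q).map f).sum := by
  induction S using Multiset.induction_on with
  | empty => simp
  | cons ρ S ih =>
    have ih' := ih (fun u hu => h1 u (Multiset.mem_cons_of_mem hu))
      (fun u hu => h2 u (Multiset.mem_cons_of_mem hu))
    rw [Multiset.map_cons, Multiset.sum_cons]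
    by_cases hq : q ρ
    · rw [Multiset.filter_cons_of_pos S hq, Multiset.map_cons, Multiset.sum_cons]
      have := h1 ρ (Multiset.mem_cons_self _ _) hq
      linarith
    · rw [Multiset.filter_cons_of_neg S hq]
      have := h2 ρ (Multiset.mem_cons_self _ _) hq
      linarith

open Classical in
theorem sum_ind (S : Multiset ℂ) (q : ℂ → Prop) :
    (S.map fun ρ => if q ρ then (1 : ℝ) else 0).sum = (S.filter q).card := by
  induction S using Multiset.induction_on with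
  | empty => simp
  | cons ρ S ih =>
    rw [Multiset.map_cons, Multiset.sum_cons, ih]
    by_cases hq : q ρ
    · rw [Multiset.filter_cons_of_pos S hq, if_pos hq, Multiset.card_cons]
      push_cast
      ring
    · rw [Multiset.filter_cons_of_neg S hq, if_neg hq, zero_add]

/-- roots within 60 degrees of the negative axis -/
theorem near_re {ρ : ℂ} (h1 : ρ.re < 0) (h2 : ρ.im ^ 2 ≤ 3 * ρ.re ^ 2) : ρ.re ≤ -‖ρ‖ / 2 := by
  have h3 : ‖ρ‖ ^ 2 = ρ.re ^ 2 + ρ.im ^ 2 := by
    rw [← Complex.normSq_eq_norm_sq, Complex.normSq_apply]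
    ring
  have h4 := norm_nonneg ρ
  have h5 : ‖ρ‖ ≤ -2 * ρ.re := by
    refine le_of_sq_le_sq ?_ (by linarith)
    nlinarith
  linarith
where
  le_of_sq_le_sq {a b : ℝ} (h : a ^ 2 ≤ b ^ 2) (hb : 0 ≤ b) : a ≤ b := by
    by_contra hc
    push Not at hc
    nlinarith

theorem norm_sub_ge {ρ : ℂ} {r : ℝ} (hr : 0 < r) (h1 : ρ.re ≤ 0) :
    ‖ρ‖ ≤ ‖(r : ℂ) - ρ‖ ∧ r ≤ ‖(r : ℂ) - ρ‖ := by
  constructor
  · have h3 : ‖ρ‖ ^ 2 = ρ.re ^ 2 + ρ.im ^ 2 := by
      rw [← Complex.normSq_eq_norm_sq, Complex.normSq_apply]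
      ring
    have h4 : ‖(r : ℂ) - ρ‖ ^ 2 = (r - ρ.re) ^ 2 + ρ.im ^ 2 := by
      rw [← Complex.normSq_eq_norm_sq, Complex.normSq_apply]
      simp
      ring
    have h5 := norm_nonneg ((r : ℂ) - ρ)
    by_contra hc
    push Not at hc
    nlinarith [norm_nonneg ρ]
  · have h1' : r - ρ.re ≤ ‖(r : ℂ) - ρ‖ := by
      have := Complex.re_le_norm ((r : ℂ) - ρ)
      simpa using this
    linarith

theorem re_p_le {ρ : ℂ} {r : ℝ} (hr : 0 < r) (h0 : ρ ≠ 0) (h1 : ρ.re ≤ 0) :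
    (p r ρ).re ≤ 1 ∧ (p r ρ).re ≤ r / ‖ρ‖ := by
  obtain ⟨h2, h3⟩ := norm_sub_ge hr h1
  have h4 : 0 < ‖ρ‖ := norm_pos_iff.2 h0
  have h5 := Complex.re_le_norm (p r ρ)
  have h6 : ‖p r ρ‖ = r / ‖(r : ℂ) - ρ‖ := by
    unfold p
    rw [norm_div, Complex.norm_real, Real.norm_of_nonneg hr.le]
  constructor
  · refine h5.trans ?_
    rw [h6, div_le_one (by linarith)]
    exact h3
  · refine h5.trans ?_
    rw [h6]
    exact div_le_div_of_nonneg_left hr.le h4 h2

theorem re_neg_inv (ρ : ℂ) : (-ρ⁻¹).re = -ρ.re / ‖ρ‖ ^ 2 := by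
  rw [Complex.neg_re, Complex.inv_re, Complex.normSq_eq_norm_sq]
  ring

end Pool.Agent.Helper10.PC
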