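import Pool.Agent.Helper10.PC.Low

/-!
# The low coefficients, main statement
-/

set_option autoImplicit false

namespace Pool.Agent.Helper10.PC

open Polynomial EVC Pool.Agent.Helper76.Conway

variable {b κ ε E : ℝ} {L : ℕ} {P : ℝ[X]}

theorem re_sum_map (S : Multiset ℂ) (f : ℂ → ℂ) :
    (S.map f).sum.re = (S.map fun ρ => (f ρ).re).sum := by
  induction S using Multiset.induction_on with
  | empty => simp
  | cons ρ S ih =>
    rw [Multiset.map_cons, Multiset.sum_cons, Multiset.map_cons, Multiset.sum_cons, Complex.add_re, ih]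

theorem mean_re (h : Nice L P) {r : ℝ} (hr : 0 < r) :
    mean P r = ((Z P).map fun ρ => (p r ρ).re).sum := by
  rw [← re_sum_map, mean_eq h hr, Complex.ofReal_re]

open Classical in
/-- inverse moduli of the roots in the annulus -/
noncomputable def nn (R ε : ℝ) (ρ : ℂ) : ℝ := if R < ‖ρ‖ ∧ ‖ρ‖ < ε then 1 / ‖ρ‖ else 0

theorem nn_nonneg (R ε : ℝ) (ρ : ℂ) : 0 ≤ nn R ε ρ := by
  unfold nn
  split_ifs
  · positivity
  · exact le_rfl

open Classical in
/-- upper bound of the mean by the parts -/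
theorem mean_le_parts (hA : AdmP b κ ε E) (h : HP b κ ε E L P) {r R : ℝ} (hr : 0 < r)
    (hRε : R < ε) : mean P r ≤ cnt P R + r * ((Z P).map (nn R ε)).sum + 1 / b * (r / ε) * M P ε := by
  have hb := hA.hb
  have hε := hA.hε
  rw [mean_re h.toNice hr]
  have h1 : ∀ ρ ∈ Z P, (p r ρ).re ≤ (if ‖ρ‖ ≤ R then (1 : ℝ) else 0) + r * nn R ε ρ +
      1 / b * (r / ε) * min 1 (ε / ‖ρ‖) := by
    intro ρ hρ
    have h0 := Z_ne_zero h.toNice hρ
    have hn : 0 < ‖ρ‖ := norm_pos_iff.2 h0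
    have hm : 0 ≤ 1 / b * (r / ε) * min 1 (ε / ‖ρ‖) := by
      have : 0 ≤ min 1 (ε / ‖ρ‖) := le_min zero_le_one (by positivity)
      positivity
    by_cases c1 : ‖ρ‖ ≤ R
    · rw [if_pos c1]
      obtain ⟨n1, n2⟩ := h.near ρ hρ (by linarith)
      have := (re_p_le hr h0 n1.le).1
      have := mul_nonneg hr.le (nn_nonneg R ε ρ)
      linarith
    · rw [if_neg c1, zero_add]
      push Not at c1
      by_cases c2 : ‖ρ‖ < ε
      · obtain ⟨n1, n2⟩ := h.near ρ hρ c2
        have h2 := (re_p_le hr h0 n1.le).2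
        have h3 : r * nn R ε ρ = r / ‖ρ‖ := by
          unfold nn
          rw [if_pos ⟨c1, c2⟩]
          ring
        linarith
      · push Not at c2
        have h2 := norm_p_le hb hr h0 (h.dist ρ hρ r hr)
        have h3 := Complex.re_le_norm (p r ρ)
        have h4 : min 1 (ε / ‖ρ‖) = ε / ‖ρ‖ := by
          apply min_eq_right
          rw [div_le_one hn]
          exact c2
        have h5 : b⁻¹ * min 1 (r / ‖ρ‖) ≤ b⁻¹ * (r / ‖ρ‖) :=
          mul_le_mul_of_nonneg_left (min_le_right _ _) (by positivity)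
        have h6 : 1 / b * (r / ε) * min 1 (ε / ‖ρ‖) = b⁻¹ * (r / ‖ρ‖) := by
          rw [h4]
          field_simp
        have := mul_nonneg hr.le (nn_nonneg R ε ρ)
        linarith
  refine (Multiset.sum_map_le_sum_map _ _ h1).trans (le_of_eq ?_)
  rw [Multiset.sum_map_add, Multiset.sum_map_add, Multiset.sum_map_mul_left, Multiset.sum_map_mul_left,
    sum_ind]
  rfl

open Classical in
theorem low (hA : AdmP b κ ε E) (h : HP b κ ε E L P) {J : ℕ} (hJ1 : 1 ≤ J)
    (hL : 10 ^ 17 * ((J : ℝ) ^ 2 + E) ≤ L * (b * √ε)) : ∀ k : ℕ, 1 ≤ k → k ≤ J →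
    P.coeff (k - 1) * P.coeff (k + 1) ≤ P.coeff k ^ 2 := by
  have hb := hA.hb
  have hb1 := hA.hb1
  have hε := hA.hε
  have hε1 := hA.hε1
  have hE := hA.hE
  have hL0 : (0 : ℝ) ≤ L := Nat.cast_nonneg L
  have hJr : (1 : ℝ) ≤ J := by exact_mod_cast hJ1
  have hJ2 : (1 : ℝ) ≤ (J : ℝ) ^ 2 := by nlinarith
  obtain ⟨s, hs⟩ : ∃ s, s = √ε := ⟨_, rfl⟩
  have hs0 : 0 < s := by rw [hs]; exact Real.sqrt_pos.2 hε
  have hs2 : s ^ 2 = ε := by rw [hs]; exact Real.sq_sqrt hε.le
  have hs1 : s ≤ 1 := by nlinarith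
  rw [← hs] at hL
  obtain ⟨t, ht⟩ : ∃ t, t = b * s / 4480 := ⟨_, rfl⟩
  have ht0 : 0 < t := by rw [ht]; positivity
  have hts : t ≤ s / 4480 := by
    rw [ht]
    have : b * s ≤ 1 * s := mul_le_mul_of_nonneg_right hb1 hs0.le
    linarith
  have ht1 : t ≤ 1 / 4480 := by linarith
  obtain ⟨y, hy⟩ : ∃ y, y = (L : ℝ) * t := ⟨_, rfl⟩
  have hyL : 4480 * y = L * (b * s) := by rw [hy, ht]; ring
  have hyJ : 10 ^ 13 * ((J : ℝ) ^ 2 + E) ≤ y := by
    have h1 : 10 ^ 17 * ((J : ℝ) ^ 2 + E) ≤ 4480 * y := by rw [hyL]; exact hL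
    have h2 : 0 ≤ (J : ℝ) ^ 2 + E := by linarith
    linarith
  have hyE : 10 ^ 13 * E ≤ y := by
    have : 0 ≤ (J : ℝ) ^ 2 := by positivity
    linarith
  have hyJ2 : 10 ^ 13 * (J : ℝ) ^ 2 ≤ y := by linarith
  have hy0 : 0 < y := by linarith
  -- the two radii
  obtain ⟨r, hr⟩ : ∃ r, r = t ^ 2 := ⟨_, rfl⟩
  have hr0 : 0 < r := by rw [hr]; positivity
  have hsr : √r = t := by rw [hr]; exact Real.sqrt_sq ht0.le
  obtain ⟨R, hR⟩ : ∃ R, R = (t / 112) ^ 2 := ⟨_, rfl⟩
  have hR0 : 0 < R := by rw [hR]; positivity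
  have hsR : √R = t / 112 := by rw [hR]; exact Real.sqrt_sq (by positivity)
  have hRr : 12544 * R = r := by rw [hR, hr]; ring
  have hrε : r / ε = (b / 4480) ^ 2 := by
    rw [hr, ht, ← hs2]
    field_simp
  have hrε' : r = (b / 4480) ^ 2 * ε := by
    rw [← hrε]
    field_simp
  have hr1 : r ≤ 1 := by
    rw [hr]
    nlinarith
  have hb2 : b ^ 2 ≤ 1 := by nlinarith
  have hRε : R < ε := by
    have h1 : (b / 4480) ^ 2 * ε ≤ 1 / 4480 ^ 2 * ε := by
      refine mul_le_mul_of_nonneg_right ?_ hε.le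
      rw [div_pow]
      exact div_le_div_of_nonneg_right hb2 (by norm_num)
    rw [← hrε', ← hRr] at h1
    nlinarith
  -- counts
  have hcR : (cnt P R : ℝ) ≤ 2 * (y / 112 + E) := by
    have := cnt_le h hR0 (by linarith)
    rw [hsR] at this
    have e : (L : ℝ) * (t / 112) = y / 112 := by rw [hy]; ring
    rwa [e] at this
  have hMR : M P R ≤ 8 * (y / 112) + 3 * E := by
    have := M_le h (by linarith) hR0
    rw [hsR] at this
    have e : (L : ℝ) * (t / 112) = y / 112 := by rw [hy]; ring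
    rwa [e] at this
  have hMε : M P ε ≤ 8 * (L * s) + 3 * E := by
    have := M_le h (by linarith) hε
    rwa [← hs] at this
  have hbLs : b * (L * s) = 4480 * y := by rw [hyL]; ring
  have hMr : (b / 4480) ^ 2 * M P ε ≤ b * (y / 560) + E := by
    have h1 : (b / 4480) ^ 2 * M P ε ≤ (b / 4480) ^ 2 * (8 * (L * s) + 3 * E) :=
      mul_le_mul_of_nonneg_left hMε (by positivity)
    have h2 : (b / 4480) ^ 2 * (8 * (L * s) + 3 * E) = b * (y / 560) + b ^ 2 * (3 * E) / 4480 ^ 2 := by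
      have : (b / 4480) ^ 2 * (8 * (L * s)) = b * (8 * (b * (L * s))) / 4480 ^ 2 := by ring
      rw [mul_add, this, hbLs]
      ring
    have h3 : b ^ 2 * (3 * E) ≤ 1 * (3 * E) := mul_le_mul_of_nonneg_right hb2 (by linarith)
    rw [h2] at h1
    linarith
  obtain ⟨N, hN⟩ : ∃ N, N = ((Z P).map (nn R ε)).sum := ⟨_, rfl⟩
  -- lower bound of N
  have hNr : y / 20 ≤ r * N := by
    have h1 := mean_ge h hr0 (by rw [hsr]; linarith) (by linarith) (by rw [hsr, ← hy]; linarith)
      (by linarith)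
    have h2 := mean_le_parts hA h hr0 hRε
    rw [hsr, ← hy] at h1
    rw [← hN, hrε] at h2
    have h3 : 1 / b * (b / 4480) ^ 2 * M P ε ≤ y / 560 + E := by
      have h4 : M P ε * b / 4480 ^ 2 ≤ y / 560 + E := by
        have h5 : b * (M P ε * b / 4480 ^ 2) ≤ b * (y / 560) + E := by
          have e : b * (M P ε * b / 4480 ^ 2) = (b / 4480) ^ 2 * M P ε := by ring
          rw [e]
          exact hMr
        have h6 : M P ε * b ≤ (8 * (L * s) + 3 * E) * b := mul_le_mul_of_nonneg_right hMε hb.le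
        have h7 : (8 * (L * s) + 3 * E) * b = 8 * (4480 * y) + 3 * E * b := by
          rw [← hbLs]
          ring
        have h8 : 3 * E * b ≤ 3 * E * 1 := mul_le_mul_of_nonneg_left hb1 (by linarith)
        linarith
      have e : 1 / b * (b / 4480) ^ 2 * M P ε = M P ε * b / 4480 ^ 2 := by
        field_simp
      rw [e]
      exact h4
    linarith
  have hN0 : 0 ≤ N := by
    by_contra hc
    push Not at hc
    have : r * N < 0 := mul_neg_of_pos_of_neg hr0 hc
    linarith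
  -- split
  have hPne : P ≠ 0 := by
    rintro rfl
    have := h.one
    simp at this
    linarith
  obtain ⟨F, hF, hZF, hF0, hlift⟩ := split R P.natDegree P rfl hPne (by linarith [h.one])
    (fun u hu huR => by
      obtain ⟨n1, n2⟩ := h.near u hu (by linarith)
      exact near_re n1 n2)
  obtain ⟨l, hl⟩ : ∃ l, l = ((Z F).map fun ρ => (-ρ⁻¹).re).sum := ⟨_, rfl⟩
  obtain ⟨G, hG⟩ : ∃ G, G = ((Z F).map fun ρ => 1 / ‖ρ‖).sum := ⟨_, rfl⟩
  have hlN : 1 / 2 * N - 1 / ε * M P ε ≤ l := by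
    rw [hl, hZF]
    have h1 : 1 / 2 * N - 1 / ε * M P ε =
        ((Z P).map fun ρ => 1 / 2 * nn R ε ρ - 1 / ε * min 1 (ε / ‖ρ‖)).sum := by
      rw [Multiset.sum_map_sub, Multiset.sum_map_mul_left, Multiset.sum_map_mul_left, hN]
      rfl
    rw [h1]
    refine sum_filter_ge (Z P) (fun ρ => R < ‖ρ‖) _ _ ?_ ?_
    · intro ρ hρ hq
      have h0 := Z_ne_zero h.toNice hρ
      have hn : 0 < ‖ρ‖ := norm_pos_iff.2 h0
      have hm : 0 ≤ 1 / ε * min 1 (ε / ‖ρ‖) := by
        have : 0 ≤ min 1 (ε / ‖ρ‖) := le_min zero_le_one (by positivity)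
        positivity
      rw [re_neg_inv]
      by_cases c : ‖ρ‖ < ε
      · obtain ⟨n1, n2⟩ := h.near ρ hρ c
        have h2 := near_re n1 n2
        have h3 : 1 / 2 * nn R ε ρ = 1 / (2 * ‖ρ‖) := by
          unfold nn
          rw [if_pos ⟨hq, c⟩]
          field_simp
        have h4 : 1 / (2 * ‖ρ‖) ≤ -ρ.re / ‖ρ‖ ^ 2 := by
          rw [div_le_div_iff₀ (by positivity) (by positivity)]
          nlinarith
        linarith
      · have h3 : nn R ε ρ = 0 := by
          unfold nn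
          rw [if_neg (fun hh => c hh.2)]
        push Not at c
        have h4 : min 1 (ε / ‖ρ‖) = ε / ‖ρ‖ := by
          apply min_eq_right
          rw [div_le_one hn]
          exact c
        have h5 : 1 / ε * min 1 (ε / ‖ρ‖) = 1 / ‖ρ‖ := by
          rw [h4]
          field_simp
        have h6 : ρ.re ≤ ‖ρ‖ := Complex.re_le_norm ρ
        have h7 : -(1 / ‖ρ‖) ≤ -ρ.re / ‖ρ‖ ^ 2 := by
          rw [neg_div, neg_le_neg_iff, div_le_div_iff₀ (by positivity) (by positivity)]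
          nlinarith
        rw [h3, h5]
        linarith
    · intro ρ hρ hq
      have h3 : nn R ε ρ = 0 := by
        unfold nn
        rw [if_neg (fun hh => hq hh.1)]
      have hm : 0 ≤ 1 / ε * min 1 (ε / ‖ρ‖) := by
        have : 0 ≤ min 1 (ε / ‖ρ‖) := le_min zero_le_one (by positivity)
        positivity
      rw [h3]
      linarith
  have hrl : y / 50 ≤ r * l := by
    have h1 : r * (1 / 2 * N - 1 / ε * M P ε) ≤ r * l := mul_le_mul_of_nonneg_left hlN hr0.le
    have h2 : r * (1 / ε * M P ε) = (b / 4480) ^ 2 * M P ε := by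
      rw [← hrε]
      ring
    have h3 : b * (y / 560) ≤ 1 * (y / 560) := mul_le_mul_of_nonneg_right hb1 (by positivity)
    have h4 : r * (1 / 2 * N - 1 / ε * M P ε) = 1 / 2 * (r * N) - r * (1 / ε * M P ε) := by ring
    rw [h4, h2] at h1
    linarith
  have hGM : R * G ≤ 8 * (y / 112) + 3 * E := by
    have h1 : G ≤ R⁻¹ * M P R := by
      rw [hG, hZF]
      unfold M
      rw [← Multiset.sum_map_mul_left]
      refine sum_filter_le (Z P) (fun ρ => R < ‖ρ‖) _ _ ?_ ?_
      · intro ρ hρ hq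
        have hn : 0 < ‖ρ‖ := hR0.trans hq
        have h4 : min 1 (R / ‖ρ‖) = R / ‖ρ‖ := by
          apply min_eq_right
          rw [div_le_one hn]
          exact hq.le
        rw [h4]
        apply le_of_eq
        field_simp
      · intro ρ hρ hq
        have : 0 ≤ min 1 (R / ‖ρ‖) := le_min zero_le_one (by positivity)
        positivity
    have h2 : R * G ≤ R * (R⁻¹ * M P R) := mul_le_mul_of_nonneg_left h1 hR0.le
    rw [← mul_assoc, mul_inv_cancel₀ hR0.ne', one_mul] at h2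
    linarith
  have hl0 : 0 < l := by
    by_contra hc
    push Not at hc
    have : r * l ≤ 0 := mul_nonpos_of_nonneg_of_nonpos hr0.le hc
    linarith
  have hRl : y / 627200 ≤ R * l := by
    rw [← hRr] at hrl
    have e : 12544 * R * l = 12544 * (R * l) := by ring
    rw [e] at hrl
    linarith
  have hGl : G ≤ 62750 * l := by
    refine le_of_mul_le_mul_left ?_ hR0
    have e : R * (62750 * l) = 62750 * (R * l) := by ring
    rw [e]
    linarith
  have hfar := far_tpk (F := F) (R := R) (K := 62750) (J := J) hF0 hR0 (by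
    intro ρ hρ
    rw [hZF] at hρ
    exact (Multiset.mem_filter.1 hρ).2) (by rw [← hl]; exact hl0) (by rw [← hG, ← hl]; exact hGl)
    (by norm_num) (by
      rw [← hl]
      have e : l * R = R * l := by ring
      rw [e]
      linarith) hJ1
  have hP := hlift _ hfar
  intro k hk1 hkJ
  obtain ⟨m, rfl⟩ : ∃ m, k = m + 1 := ⟨k - 1, by omega⟩
  have h1 := hP.2 ((m + 1 : ℕ) : ℤ) ((m + 1 : ℕ) : ℤ) le_rfl
  have e1 : ((m + 1 : ℕ) : ℤ) - 1 = (m : ℤ) := by push_cast; ring
  have e2 : ((m + 1 : ℕ) : ℤ) + 1 = ((m + 2 : ℕ) : ℤ) := by push_cast; ring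
  rw [e1, e2] at h1
  have htr : ∀ i : ℕ, i ≤ J + 1 → tr ((J + 1 : ℕ) : ℤ) P i = P.coeff i := by
    intro i hi
    unfold tr
    rw [if_pos (by exact_mod_cast hi), cz_natCast]
  rw [htr m (by omega), htr (m + 1) (by omega), htr (m + 2) (by omega)] at h1
  rw [Nat.add_sub_cancel, sq]
  exact h1

end Pool.Agent.Helper10.PC
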