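import Pool.Agent.Helper10.PC.Trunc
import Pool.Agent.Helper3.EVC.E07

/-!
# Newton's recursion for the coefficients of a polynomial whose roots are large
-/

set_option autoImplicit false

namespace Pool.Agent.Helper10.PC

open Polynomial EVC Pool.Agent.Helper76.Conway

/-- power sums, with signs -/
noncomputable def pw (S : Multiset ℂ) (i : ℕ) : ℂ := (S.map fun u => (-1) ^ i * u ^ (i + 1)).sum

theorem geom_mul (u : ℂ) :
    ((1 + C u * X : ℂ[X]) : PowerSeries ℂ) * PowerSeries.mk (fun i => (-1) ^ i * u ^ (i + 1)) =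
      PowerSeries.C u := by
  ext n
  have e : ((1 + C u * X : ℂ[X]) : PowerSeries ℂ) = 1 + PowerSeries.C u * PowerSeries.X := by
    simp
  rw [e, add_mul, one_mul, map_add, mul_assoc, PowerSeries.coeff_C_mul, PowerSeries.coeff_mk,
    PowerSeries.coeff_C]
  rcases n with _ | n
  · simp
  · rw [PowerSeries.coeff_succ_X_mul, PowerSeries.coeff_mk, if_neg (by omega)]
    ring

theorem deriv_prod (S : Multiset ℂ) :
    ((derivative ((S.map fun u => 1 + C u * X).prod) : ℂ[X]) : PowerSeries ℂ) =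
      (((S.map fun u => 1 + C u * X).prod : ℂ[X]) : PowerSeries ℂ) * PowerSeries.mk (pw S) := by
  induction S using Multiset.induction_on with
  | empty =>
    have e : PowerSeries.mk (pw 0) = 0 := by
      ext n
      simp [pw]
    rw [e]
    simp
  | cons u S ih =>
    have e : PowerSeries.mk (pw (u ::ₘ S)) =
        PowerSeries.mk (fun i => (-1) ^ i * u ^ (i + 1)) + PowerSeries.mk (pw S) := by
      ext n
      simp [pw]
    rw [Multiset.map_cons, Multiset.prod_cons, derivative_mul, Polynomial.coe_add, Polynomial.coe_mul,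
      Polynomial.coe_mul, ih, Polynomial.coe_mul, e]
    have h1 : derivative (1 + C u * X : ℂ[X]) = C u := by simp
    rw [h1, Polynomial.coe_C, ← geom_mul u]
    ring

theorem map_eq_prod {F : ℝ[X]} (h0 : F.coeff 0 ≠ 0) :
    F.map (algebraMap ℝ ℂ) = C ((F.coeff 0 : ℝ) : ℂ) *
      (((Z F).map fun ρ => -ρ⁻¹).map fun u => 1 + C u * X).prod := by
  have hs := (IsAlgClosed.splits (F.map (algebraMap ℝ ℂ))).eq_prod_roots
  have hne : ∀ ρ ∈ Z F, ρ ≠ 0 := by
    rintro ρ hρ rfl
    have h1 : (F.map (algebraMap ℝ ℂ)).eval 0 = 0 := (Polynomial.mem_roots'.1 hρ).2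
    rw [← Polynomial.coeff_zero_eq_eval_zero, Polynomial.coeff_map] at h1
    exact h0 (by simpa using h1)
  have key : ∀ S : Multiset ℂ, (∀ ρ ∈ S, ρ ≠ 0) →
      (S.map fun ρ => X - C ρ).prod = C ((S.map fun ρ => -ρ).prod) *
        ((S.map fun ρ => -ρ⁻¹).map fun u => 1 + C u * X).prod := by
    intro S
    induction S using Multiset.induction_on with
    | empty => simp
    | cons ρ S ih =>
      intro h
      rw [Multiset.map_cons, Multiset.prod_cons, Multiset.map_cons, Multiset.prod_cons,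
        Multiset.map_cons, Multiset.map_cons, Multiset.prod_cons,
        ih fun ρ hρ => h ρ (Multiset.mem_cons_of_mem hρ)]
      have h1 : (X - C ρ : ℂ[X]) = C (-ρ) * (1 + C (-ρ⁻¹) * X) := by
        have h2 : ρ ≠ 0 := h ρ (Multiset.mem_cons_self _ _)
        rw [mul_add, ← mul_assoc, ← C_mul, neg_mul_neg, mul_inv_cancel₀ h2]
        simp only [C_neg, mul_one, C_1, one_mul]
        ring
      rw [h1, C_mul]
      ring
  have h2 := key (Z F) hne
  unfold Z at h2
  rw [h2] at hs
  have h3 : ((F.coeff 0 : ℝ) : ℂ) = (F.map (algebraMap ℝ ℂ)).leadingCoeff *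
      (((F.map (algebraMap ℝ ℂ)).roots).map fun ρ => -ρ).prod := by
    have h4 : (F.map (algebraMap ℝ ℂ)).coeff 0 = ((F.coeff 0 : ℝ) : ℂ) := by
      rw [coeff_map]; rfl
    rw [← h4]
    conv_lhs => rw [hs]
    rw [coeff_C_mul, coeff_C_mul]
    have h5 : ∀ T : Multiset ℂ, ((T.map fun u => (1 + C u * X : ℂ[X])).prod).coeff 0 = 1 := by
      intro T
      induction T using Multiset.induction_on with
      | empty => simp
      | cons u T ih =>
        rw [Multiset.map_cons, Multiset.prod_cons, mul_coeff_zero, ih]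
        simp
    rw [h5, mul_one]
  conv_lhs => rw [hs]
  rw [h3, C_mul, ← mul_assoc]
  rfl

/-- **Newton's recursion.** -/
theorem newton {F : ℝ[X]} (h0 : F.coeff 0 ≠ 0) (j : ℕ) :
    ((j : ℝ) + 1) * F.coeff (j + 1) =
      ∑ i ∈ Finset.range (j + 1), (pw ((Z F).map fun ρ => -ρ⁻¹) i).re * F.coeff (j - i) := by
  have h1 := map_eq_prod h0
  have h2 := deriv_prod ((Z F).map fun ρ => -ρ⁻¹)
  have h3 : ((derivative (F.map (algebraMap ℝ ℂ)) : ℂ[X]) : PowerSeries ℂ) =
      ((F.map (algebraMap ℝ ℂ) : ℂ[X]) : PowerSeries ℂ) *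
        PowerSeries.mk (pw ((Z F).map fun ρ => -ρ⁻¹)) := by
    conv_lhs => rw [h1]
    conv_rhs => rw [h1]
    rw [derivative_C_mul, Polynomial.coe_mul, h2, Polynomial.coe_mul]
    ring
  have h4 := congrArg (PowerSeries.coeff j) h3
  rw [mul_comm, PowerSeries.coeff_mul, Polynomial.coeff_coe, coeff_derivative, coeff_map,
    Finset.Nat.sum_antidiagonal_eq_sum_range_succ_mk] at h4
  have h5 := congrArg Complex.re h4
  have h6 : ((algebraMap ℝ ℂ) (F.coeff (j + 1)) * ((j : ℂ) + 1)).re = ((j : ℝ) + 1) * F.coeff (j + 1) := by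
    have : (algebraMap ℝ ℂ) (F.coeff (j + 1)) * ((j : ℂ) + 1) =
        ((((j : ℝ) + 1) * F.coeff (j + 1) : ℝ) : ℂ) := by
      push_cast
      rw [mul_comm]
      rfl
    rw [this, Complex.ofReal_re]
  rw [h6, Complex.re_sum] at h5
  rw [h5]
  refine Finset.sum_congr rfl fun i _ => ?_
  rw [PowerSeries.coeff_mk, Polynomial.coeff_coe, coeff_map]
  have : (algebraMap ℝ ℂ) (F.coeff (j - i)) = ((F.coeff (j - i) : ℝ) : ℂ) := rfl
  rw [this, Complex.re_mul_ofReal]

/-- bound of the power sums -/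
theorem pw_le {S : Multiset ℂ} {R : ℝ} (hR : 0 < R) (hS : ∀ ρ ∈ S, R < ‖ρ‖) (i : ℕ) :
    |(pw (S.map fun ρ => -ρ⁻¹) i).re| ≤ (S.map fun ρ => 1 / ‖ρ‖).sum * (R⁻¹) ^ i := by
  refine (Complex.abs_re_le_norm _).trans ?_
  unfold pw
  rw [Multiset.map_map]
  refine (norm_multiset_sum_le _).trans ?_
  rw [Multiset.map_map, ← Multiset.sum_map_mul_right]
  refine Multiset.sum_map_le_sum_map _ _ fun ρ hρ => ?_
  have h1 := hS ρ hρ
  have h2 : 0 < ‖ρ‖ := hR.trans h1
  simp only [Function.comp_apply, norm_mul, norm_pow, norm_neg, norm_one, one_pow, one_mul, norm_inv]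
  rw [pow_succ, mul_comm, one_div]
  refine mul_le_mul_of_nonneg_left ?_ (by positivity)
  exact pow_le_pow_left₀ (by positivity) (inv_anti₀ hR h1.le) i

theorem pw_zero (S : Multiset ℂ) :
    (pw (S.map fun ρ => -ρ⁻¹) 0).re = (S.map fun ρ => (-ρ⁻¹).re).sum := by
  unfold pw
  rw [Multiset.map_map]
  simp only [Function.comp_def, pow_zero, one_mul, zero_add, pow_one]
  induction S using Multiset.induction_on with
  | empty => simp
  | cons ρ S ih =>
    rw [Multiset.map_cons, Multiset.sum_cons, Multiset.map_cons, Multiset.sum_cons, Complex.add_re, ih]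

end Pool.Agent.Helper10.PC
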