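import Pool.Agent.Helper3.EVC.Defs
import Pool.Agent.Helper76.Conway.LogConc

/-!
# Truncated coefficient sequences and the splitting into near and far roots
-/

set_option autoImplicit false

namespace Pool.Agent.Helper10.PC

open Polynomial EVC Pool.Agent.Helper76.Conway

/-- the coefficients up to the index `K` -/
noncomputable def tr (K : ℤ) (Q : ℝ[X]) (i : ℤ) : ℝ := if i ≤ K then cz Q i else 0

/-- all `2 × 2` minors of the coefficients up to the index `K` are nonnegative -/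
def TPK (K : ℤ) (Q : ℝ[X]) : Prop := TP (tr K Q)

theorem TP.trunc {a : ℤ → ℝ} (ha : TP a) (K : ℤ) : TP (fun i => if i ≤ K then a i else 0) := by
  obtain ⟨h0, h1⟩ := ha
  refine ⟨fun i => by dsimp only; split_ifs; exacts [h0 i, le_rfl], fun i j hij => ?_⟩
  dsimp only
  by_cases h : j + 1 ≤ K
  · rw [if_pos h, if_pos (by omega), if_pos (by omega), if_pos (by omega)]
    exact h1 i j hij
  · rw [if_neg h, mul_zero]
    split_ifs
    · exact mul_nonneg (h0 i) (h0 j)
    · simp
    · simp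
    · simp

theorem TPK.linear {K : ℤ} {Q : ℝ[X]} (h : TPK K Q) {α : ℝ} (hα : 0 ≤ α) :
    TPK K ((X + C α) * Q) := by
  have h1 := TP.trunc (TP.linear h hα) K
  have : (fun i => if i ≤ K then tr K Q (i - 1) + α * tr K Q i else 0) = tr K ((X + C α) * Q) := by
    funext i
    unfold tr
    split_ifs with h2 h3
    · rw [add_mul, cz_add, cz_X_mul, cz_C_mul]
    · omega
    · rfl
  unfold TPK
  rw [← this]
  exact h1

theorem TPK.quadratic {K : ℤ} {Q : ℝ[X]} (h : TPK K Q) {p q : ℝ} (hp : 0 ≤ p) (hq : 0 ≤ q)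
    (hpq : q ≤ p ^ 2) : TPK K ((X ^ 2 + C p * X + C q) * Q) := by
  have h1 := TP.trunc (TP.quadratic h hp hq hpq) K
  have : (fun i => if i ≤ K then tr K Q (i - 2) + p * tr K Q (i - 1) + q * tr K Q i else 0) =
      tr K ((X ^ 2 + C p * X + C q) * Q) := by
    funext i
    unfold tr
    split_ifs with h2 h3 h4
    · have e : (X ^ 2 + C p * X + C q) * Q = X * (X * Q) + (C p * (X * Q) + C q * Q) := by ring
      rw [e, cz_add, cz_add, cz_X_mul, cz_X_mul, cz_C_mul, cz_X_mul, cz_C_mul,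
        show i - 1 - 1 = i - 2 by ring]
      ring
    all_goals first | omega | rfl
  unfold TPK
  rw [← this]
  exact h1

theorem mem_Z_iff {Q : ℝ[X]} (hQ : Q ≠ 0) (u : ℂ) : u ∈ Z Q ↔ aeval u Q = 0 := by
  unfold Z
  rw [mem_roots', IsRoot, eval_map_algebraMap]
  exact ⟨fun h => h.2, fun h => ⟨(Polynomial.map_ne_zero_iff (algebraMap ℝ ℂ).injective).2 hQ, h⟩⟩

theorem Z_mul {Q₁ Q₂ : ℝ[X]} (h : Q₁ * Q₂ ≠ 0) : Z (Q₁ * Q₂) = Z Q₁ + Z Q₂ := by
  unfold Z
  rw [Polynomial.map_mul, roots_mul]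
  rw [← Polynomial.map_mul]
  exact (Polynomial.map_ne_zero_iff (algebraMap ℝ ℂ).injective).2 h

open Classical in
/-- **Splitting.** The roots of modulus at most `R` are removed one after the other. -/
theorem split (R : ℝ) : ∀ (n : ℕ) (Q : ℝ[X]), Q.natDegree = n → Q ≠ 0 → 0 < Q.coeff 0 →
    (∀ u ∈ Z Q, ‖u‖ ≤ R → u.re ≤ -‖u‖ / 2) →
    ∃ F : ℝ[X], F ≠ 0 ∧ Z F = (Z Q).filter (fun u => R < ‖u‖) ∧ 0 < F.coeff 0 ∧
      ∀ K : ℤ, TPK K F → TPK K Q := by
  intro n
  induction n using Nat.strong_induction_on with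
  | _ n ih =>
  intro Q hn hQ hQ0 hroot
  by_cases hex : ∃ u ∈ Z Q, ‖u‖ ≤ R
  swap
  · push Not at hex
    refine ⟨Q, hQ, ?_, hQ0, fun K h => h⟩
    rw [Multiset.filter_eq_self.2 hex]
  obtain ⟨u, hu, huR⟩ := hex
  have hure := hroot u hu huR
  have huQ : aeval u Q = 0 := (mem_Z_iff hQ u).1 hu
  have hun := norm_nonneg u
  have hu0 : u ≠ 0 := by
    rintro rfl
    have h1 : Q.coeff 0 = 0 := by
      have h2 : aeval ((0 : ℝ) : ℂ) Q = 0 := by simpa using huQ
      rw [aeval_def] at h2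
      have h3 := (eval₂_at_apply (p := Q) (algebraMap ℝ ℂ) 0).symm.trans h2
      rw [coeff_zero_eq_eval_zero]
      exact (map_eq_zero_iff (algebraMap ℝ ℂ) (algebraMap ℝ ℂ).injective).1 h3
    linarith
  have hunpos : 0 < ‖u‖ := norm_pos_iff.2 hu0
  by_cases him : u.im = 0
  · -- real root
    have hur : u = ((u.re : ℝ) : ℂ) := Complex.ext (by simp) (by simp [him])
    have hr : Q.IsRoot u.re := by
      have h2 : aeval ((u.re : ℝ) : ℂ) Q = 0 := by rw [← hur]; exact huQ
      have h3 : ((Q.eval u.re : ℝ) : ℂ) = 0 := by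
        rw [← h2, aeval_def]
        exact (eval₂_at_apply (algebraMap ℝ ℂ) u.re).symm
      exact_mod_cast h3
    obtain ⟨Q1, hQ1⟩ := dvd_iff_isRoot.2 hr
    have hQ1' : Q = (X + C (-u.re)) * Q1 := by rw [hQ1, C_neg]; ring
    have hQ10 : Q1 ≠ 0 := by rintro rfl; simp at hQ1; exact hQ hQ1
    have hd1 : Q1.natDegree < n := by
      have := natDegree_mul (monic_X_sub_C u.re).ne_zero hQ10
      rw [← hQ1, natDegree_X_sub_C, hn] at this
      omega
    have hZ : Z Q = {u} + Z Q1 := by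
      rw [hQ1, Z_mul (by rw [← hQ1]; exact hQ)]
      congr 1
      unfold Z
      rw [Polynomial.map_sub, map_X, map_C, roots_X_sub_C]
      conv_rhs => rw [hur]
      rfl
    have hc : Q.coeff 0 = -u.re * Q1.coeff 0 := by
      rw [hQ1', mul_coeff_zero]; simp
    have hneg : 0 < -u.re := by linarith
    have hQ1c : 0 < Q1.coeff 0 := by
      rw [hc] at hQ0
      exact (pos_iff_pos_of_mul_pos hQ0).1 hneg
    obtain ⟨F, hF, hZF, hF0, hK⟩ := ih Q1.natDegree hd1 Q1 rfl hQ10 hQ1c (fun v hv h => hroot v (by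
      rw [hZ]; exact Multiset.mem_add.2 (Or.inr hv)) h)
    refine ⟨F, hF, ?_, hF0, fun K h => ?_⟩
    · rw [hZF, hZ, Multiset.filter_add, Multiset.filter_singleton, if_neg (not_lt.2 huR)]
      simp
    · rw [hQ1']
      exact (hK K h).linear hneg.le
  · -- pair of complex roots
    obtain ⟨Q1, hQ1⟩ := Polynomial.quadratic_dvd_of_aeval_eq_zero_im_ne_zero Q huQ him
    have hQ10 : Q1 ≠ 0 := by rintro rfl; simp at hQ1; exact hQ hQ1
    set q : ℝ[X] := X ^ 2 - C (2 * u.re) * X + C (‖u‖ ^ 2) with hq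
    have hqm : q.Monic := by
      rw [hq]; monicity!
    have hqd : q.natDegree = 2 := by
      rw [hq]; compute_degree!
    have hd1 : Q1.natDegree < n := by
      have := natDegree_mul hqm.ne_zero hQ10
      rw [← hQ1, hqd, hn] at this
      omega
    have hqZ : Z q = {u, (starRingEnd ℂ) u} := by
      have e : q.map (algebraMap ℝ ℂ) = (X - C u) * (X - C ((starRingEnd ℂ) u)) := by
        rw [hq]
        simp only [Polynomial.map_add, Polynomial.map_sub, Polynomial.map_mul, Polynomial.map_pow,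
          map_X, map_C]
        have h1 : (algebraMap ℝ ℂ) (2 * u.re) = u + (starRingEnd ℂ) u := by
          rw [Complex.add_conj]; rfl
        have h2 : (algebraMap ℝ ℂ) (‖u‖ ^ 2) = u * (starRingEnd ℂ) u := by
          rw [Complex.mul_conj, Complex.normSq_eq_norm_sq]; rfl
        rw [h1, h2, C_add, C_mul]
        ring
      unfold Z
      rw [e, roots_mul (mul_ne_zero (X_sub_C_ne_zero _) (X_sub_C_ne_zero _)), roots_X_sub_C,
        roots_X_sub_C]
      rfl
    have hZ : Z Q = {u, (starRingEnd ℂ) u} + Z Q1 := by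
      rw [hQ1, Z_mul (by rw [← hQ1]; exact hQ), hqZ]
    have hc : Q.coeff 0 = ‖u‖ ^ 2 * Q1.coeff 0 := by
      rw [hQ1, mul_coeff_zero, hq, coeff_add, coeff_sub, coeff_C_zero, mul_coeff_zero, coeff_X_zero]
      simp
    have hpos : 0 < ‖u‖ ^ 2 := by positivity
    have hQ1c : 0 < Q1.coeff 0 := by
      rw [hc] at hQ0
      exact (pos_iff_pos_of_mul_pos hQ0).1 hpos
    obtain ⟨F, hF, hZF, hF0, hK⟩ := ih Q1.natDegree hd1 Q1 rfl hQ10 hQ1c (fun v hv h => hroot v (by
      rw [hZ]; exact Multiset.mem_add.2 (Or.inr hv)) h)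
    refine ⟨F, hF, ?_, hF0, fun K h => ?_⟩
    · rw [hZF, hZ, Multiset.filter_add]
      have : Multiset.filter (fun v : ℂ => R < ‖v‖) {u, (starRingEnd ℂ) u} = 0 := by
        rw [Multiset.filter_eq_nil]
        intro v hv
        rcases Multiset.mem_cons.1 hv with h | h
        · rw [h]; exact not_lt.2 huR
        · rw [Multiset.mem_singleton.1 h, RCLike.norm_conj]; exact not_lt.2 huR
      rw [this, zero_add]
    · have e : Q = (X ^ 2 + C (-2 * u.re) * X + C (‖u‖ ^ 2)) * Q1 := by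
        rw [hQ1, hq]
        simp only [C_mul, C_neg, C_ofNat]
        ring
      rw [e]
      exact (hK K h).quadratic (by linarith) (by positivity) (by nlinarith)

end Pool.Agent.Helper10.PC
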